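import Pool.Agent.H37.UMD.Stmts2

/-! THT: the weight `θ_16` is at most a multiple of `1 + ψ + ψ`. -/

set_option autoImplicit false

namespace Pool.UMD

private lemma THT_nm_le (x y : ℝ) : nm (x, y) ≤ |x| + |y| := by
  unfold nm
  rw [Real.sqrt_le_left (by positivity)]
  simp only
  have h1 := sq_abs x
  have h2 := sq_abs y
  nlinarith [mul_nonneg (abs_nonneg x) (abs_nonneg y)]

private lemma THT_nm_nonneg (x : ℝ × ℝ) : 0 ≤ nm x := Real.sqrt_nonneg _

private lemma THT_nm_swap (x y : ℝ) : nm (x, y) = nm (y, x) := by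
  unfold nm; simp only; rw [add_comm]

private lemma THT_psi_ge (β s : ℝ) (hβ : 0 < β) : |s| ≤ psi β s := by
  unfold psi
  have h1 : 0 ≤ Real.log (1 + s ^ 2) := Real.log_nonneg (by nlinarith [sq_nonneg s])
  have h2 : 1 ≤ (1 + Real.log (1 + s ^ 2)) ^ β := Real.one_le_rpow (by linarith) hβ.le
  nlinarith [abs_nonneg s]

private lemma THT_one (β : ℝ) (hβ : 0 < β) (hβ2 : β ≤ 1 / 2) (x y : ℝ) :
    (max 16 (4 * Real.log (1 + nm (x, y)))) ^ β * |x| ≤
      24 * (psi β x + |y|) := by
  set L := max 16 (4 * Real.log (1 + nm (x, y))) with hL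
  have hL16 : 16 ≤ L := le_max_left _ _
  have hn := THT_nm_le x y
  have hn0 := THT_nm_nonneg (x, y)
  have hx0 := abs_nonneg x
  have hy0 := abs_nonneg y
  have hxx := sq_abs x
  have hyy := sq_abs y
  by_cases hc : |y| ≤ 1 + x ^ 2
  · have hl0 : 0 ≤ Real.log (1 + x ^ 2) := Real.log_nonneg (by nlinarith [sq_nonneg x])
    have h3 : 1 + nm (x, y) ≤ 3 * (1 + x ^ 2) := by
      nlinarith [sq_nonneg (|x| - 1)]
    have h4 : Real.log (1 + nm (x, y)) ≤ 2 + Real.log (1 + x ^ 2) := by
      have := Real.log_le_log (by linarith) h3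
      rw [Real.log_mul (by norm_num) (by positivity)] at this
      have h5 : Real.log 3 ≤ 3 - 1 := Real.log_le_sub_one_of_pos (by norm_num)
      linarith
    have h6 : L ≤ 24 * (1 + Real.log (1 + x ^ 2)) := by
      rw [hL]; apply max_le <;> linarith
    have h7 : L ^ β ≤ 24 * (1 + Real.log (1 + x ^ 2)) ^ β := by
      calc L ^ β ≤ (24 * (1 + Real.log (1 + x ^ 2))) ^ β :=
            Real.rpow_le_rpow (by linarith) h6 hβ.le
        _ = 24 ^ β * (1 + Real.log (1 + x ^ 2)) ^ β :=
            Real.mul_rpow (by norm_num) (by linarith)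
        _ ≤ 24 * (1 + Real.log (1 + x ^ 2)) ^ β := by
            apply mul_le_mul_of_nonneg_right _ (Real.rpow_nonneg (by linarith) _)
            calc (24 : ℝ) ^ β ≤ 24 ^ (1 : ℝ) :=
                  Real.rpow_le_rpow_of_exponent_le (by norm_num) (by linarith)
              _ = 24 := Real.rpow_one _
    unfold psi
    nlinarith [mul_le_mul_of_nonneg_right h7 hx0]
  · push Not at hc
    have h1 : 1 ≤ |y| := by nlinarith [sq_nonneg x]
    have hx2 : x ^ 2 ≤ |y| := by linarith
    have hxy : |x| ≤ |y| := by nlinarith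
    have hlog : Real.log (1 + nm (x, y)) ≤ nm (x, y) := by
      have := Real.log_le_sub_one_of_pos (show 0 < 1 + nm (x, y) by linarith)
      linarith
    have h6 : L ≤ 24 * |y| := by
      rw [hL]; apply max_le <;> linarith
    have h7 : L ^ β ≤ √L := by
      rw [Real.sqrt_eq_rpow]
      exact Real.rpow_le_rpow_of_exponent_le (by linarith) hβ2
    have h8 : √L * |x| ≤ 24 * |y| := by
      have h9 : (√L * |x|) ^ 2 ≤ (24 * |y|) ^ 2 := by
        rw [mul_pow, Real.sq_sqrt (by linarith), hxx, mul_pow]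
        nlinarith [mul_le_mul h6 hx2 (sq_nonneg x) (by linarith)]
      exact le_trans (le_abs_self _) (abs_le_of_sq_le_sq h9 (by positivity))
    have hps : 0 ≤ psi β x := le_trans hx0 (THT_psi_ge β x hβ)
    nlinarith [mul_le_mul_of_nonneg_right h7 hx0]

theorem sTht : STht := by
  intro β₁ β₂ h1 h2 h12
  refine ⟨48, by norm_num, ?_⟩
  rintro ⟨x, y⟩
  have hx := THT_one β₁ h1 (by linarith) x y
  have hy := THT_one β₂ h2 (by linarith) y x
  rw [THT_nm_swap y x] at hy
  have hL0 : 0 ≤ max 16 (4 * Real.log (1 + nm (x, y))) := le_trans (by norm_num) (le_max_left _ _)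
  have hp1 := THT_psi_ge β₁ x h1
  have hp2 := THT_psi_ge β₂ y h2
  have hq1 := THT_psi_ge β₂ y h2
  unfold th NL
  have h3 := THT_nm_le (max 16 (4 * Real.log (1 + nm (x, y))) ^ β₁ * x)
    (max 16 (4 * Real.log (1 + nm (x, y))) ^ β₂ * y)
  rw [abs_mul, abs_mul, abs_of_nonneg (Real.rpow_nonneg hL0 _),
    abs_of_nonneg (Real.rpow_nonneg hL0 _)] at h3
  simp only at *
  nlinarith [abs_nonneg x, abs_nonneg y]

end Pool.UMD
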